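import Pool.Agent.Helper14.FO.Defs2

/-!
# NDT: nodes for the Lovász number (MP_190084_co, second part)
-/

set_option autoImplicit false

namespace Pool.Agent.Helper14.FO

open Finset

theorem ndt_upT {V W : Type} {X : SimpleGraph V} {Y : SimpleGraph W} (f : V → W)
    (hf : ∀ a b, X.Adj a b → Y.Adj (f a) (f b)) {θ : ℝ} (h : UpT Y θ) : UpT X θ := by
  obtain ⟨d, v, h1, h2⟩ := h
  exact ⟨d, fun x => v (f x), fun x => h1 _, fun x y hxy => h2 _ _ (hf _ _ hxy)⟩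

theorem ndt_upW {V W : Type} {X : SimpleGraph V} {Y : SimpleGraph W} (f : V → W)
    (hf : ∀ a b, X.Adj a b → Y.Adj (f a) (f b)) {χ : ℝ} (h : UpW Y χ) : UpW X χ := by
  obtain ⟨J, hJ, p, I, h0, h1, h2, h3⟩ := h
  exact ⟨J, hJ, p, fun j x => I j (f x), h0, h1,
    fun j x y hx hy hxy => h2 j _ _ hx hy (hf _ _ hxy), fun x => h3 (f x)⟩

/-- product of weighted graphs -/
noncomputable def ndtP (A B : GW) : GW where
  V := A.V × B.V
  fin := inferInstance
  dec := inferInstance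
  X := Ten A.X B.X
  ρ := PW A.ρ B.ρ
  pos := fun x => mul_pos (A.pos x.1) (B.pos x.2)
  one := by
    rw [Fintype.sum_prod_type]
    have e : ∀ a : A.V, ∑ b : B.V, PW A.ρ B.ρ (a, b) = A.ρ a := by
      intro a
      have h1 : ∀ b : B.V, PW A.ρ B.ρ (a, b) = A.ρ a * B.ρ b := fun b => rfl
      rw [Finset.sum_congr rfl fun b _ => h1 b, ← Finset.mul_sum, B.one, mul_one]
    rw [Finset.sum_congr rfl fun a _ => e a]
    exact A.one

/-- a translation invariant graph with uniform weights -/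
noncomputable def ndtU {C : ℕ} (R : RD C) : GW where
  V := R.G
  fin := inferInstance
  dec := inferInstance
  X := R.R
  ρ := UW R.G
  pos := fun x => by
    have h2 : (0 : ℝ) < Fintype.card R.G := by exact_mod_cast Fintype.card_pos
    exact one_div_pos.mpr h2
  one := by
    have h2 : (0 : ℝ) < Fintype.card R.G := by exact_mod_cast Fintype.card_pos
    have h1 : ∀ b : R.G, UW R.G b = 1 / (Fintype.card R.G : ℝ) := fun b => rfl
    rw [Finset.sum_congr rfl fun b _ => h1 b, Finset.sum_const, Finset.card_univ, nsmul_eq_mul]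
    field_simp

theorem ndt_fcP (h4 : ST_TE2b) (h4c : ST_TE2c) (A B : GW) (MA MB M : ℝ) (h0 : 0 ≤ M)
    (h1 : M ≤ 1) (hA : FC A.X A.ρ MA) (hB : FC B.X B.ρ MB) (hMA : MA ≤ M) (hMB : MB ≤ M) :
    FC (ndtP A B).X (ndtP A B).ρ M :=
  h4 _ _ _ _ _ _ _ h0 h1 (h4c _ _ _ _ _ (fun x => (A.pos x).le) hMA hA)
    (h4c _ _ _ _ _ (fun x => (B.pos x).le) hMB hB)

theorem ndt_node (h4 : ST_TE2b) (h4c : ST_TE2c) (h4d : ST_TE2d) (h5 : ST_GR2) (h6 : ST_XPF)
    (h7 : ST_XPT) (h8 : ST_ZHU) (Y K : GW) {C : ℕ} (R : RD C) (M MC χ : ℝ)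
    (hY : FC Y.X Y.ρ M) (hK : FC K.X K.ρ MC) (hχ : UpW K.X χ) (hMC0 : 0 < MC) (hMC1 : MC < 1)
    (hM1 : M ≤ R.M) (hM2 : MC ≤ R.M) (hM3 : M ≤ MC) (hC : 1 + 1 / MC ≤ C) :
    UpT (ndtP (ndtP Y K) (ndtU R)).X (1 + 1 / R.M) ∧ UpW (ndtP (ndtP Y K) (ndtU R)).X χ ∧
    LowTw (ndtP (ndtP Y K) (ndtU R)).X (ndtP (ndtP Y K) (ndtU R)).ρ (1 + 1 / R.M) ∧
    LowCw (ndtP (ndtP Y K) (ndtU R)).X (ndtP (ndtP Y K) (ndtU R)).ρ (1 + 1 / MC) := by
  have e0 : ∀ x : (ndtU R).V, 0 ≤ (ndtU R).ρ x := fun x => ((ndtU R).pos x).le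
  have e1 : ∀ x : (ndtP Y K).V, 0 ≤ (ndtP Y K).ρ x := fun x => ((ndtP Y K).pos x).le
  refine ⟨?_, ?_, ?_, ?_⟩
  · exact ndt_upT (X := Ten (Ten Y.X K.X) R.R) (fun x => x.2) (fun a b h => h.2) R.upt
  · exact ndt_upW (X := Ten (Ten Y.X K.X) R.R) (fun x => x.1.2) (fun a b h => h.1.2) hχ
  · apply h5 _ _ _ _ R.lo (ndtP (ndtP Y K) (ndtU R)).pos (ndtP (ndtP Y K) (ndtU R)).one
    refine ndt_fcP h4 h4c (ndtP Y K) (ndtU R) R.M R.M R.M R.lo.le R.hi.le ?_ ?_ le_rfl le_rfl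
    · exact ndt_fcP h4 h4c Y K M MC R.M R.lo.le R.hi.le hY hK hM1 hM2
    · exact h4d R.G R.R R.M R.cert
  · apply h8 (ndtP Y K).V (ndtU R).V (ndtP Y K).X (ndtU R).X (ndtP Y K).ρ (ndtU R).ρ _ e1 e0
      (ndtP Y K).one (ndtU R).one
    · apply h6 (ndtP Y K).V (ndtP Y K).X (ndtP Y K).ρ MC hMC0 e1
      exact ndt_fcP h4 h4c Y K M MC MC hMC0.le hMC1.le hY hK hM3 le_rfl
    · apply h7 R.G R.R R.ti (1 + 1 / MC) (by positivity)
      intro I hI
      have a1 : (C : ℝ) * I.card < Fintype.card R.G := by exact_mod_cast R.ind I hI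
      have a2 : (0 : ℝ) ≤ I.card := Nat.cast_nonneg _
      nlinarith

theorem ndt_lt {a b : ℝ} (ha : 0 < a) (hb : 0 < b) (h : 1 + 1 / a < 1 + 1 / b) : b < a := by
  have h1 : 1 / a < 1 / b := by linarith
  exact (one_div_lt_one_div ha hb).mp h1

theorem ndt_log {x t e : ℝ} (h1 : Real.exp (t - e) < x) (h2 : x < Real.exp (t + e)) :
    |Real.log x - t| < e := by
  have h0 : 0 < x := lt_trans (Real.exp_pos _) h1
  have a1 : t - e < Real.log x := by
    rw [Real.lt_log_iff_exp_lt h0]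
    exact h1
  have a2 : Real.log x < t + e := by
    rw [Real.log_lt_iff_lt_exp h0]
    exact h2
  rw [abs_lt]
  constructor <;> linarith

/-- the cube part of a node -/
structure NdtK (a b : ℝ) where
  K : GW
  M : ℝ
  χ : ℝ
  h0 : 0 < M
  h1 : M < 1
  fc : FC K.X K.ρ M
  up : UpW K.X χ
  m1 : a < 1 + 1 / M
  m2 : 1 + 1 / M < b
  c1 : a < χ
  c2 : χ < b

theorem ndt_step (h4 : ST_TE2b) (h4c : ST_TE2c) (h9 : ST_CUB) {a b a' b' : ℝ} (k : NdtK a b)
    (h2 : 2 < a') (hab : a' < b') (hba : b' < a) : ∃ k' : NdtK a' b', HomTo k'.K.X k.K.X := by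
  obtain ⟨D, M, χ, d1, d2, d3, d4, d5, d6, d7, d8⟩ := h9 a' b' h2 hab
  have e1 : k.M < M := ndt_lt d1 k.h0 (by linarith [k.m1])
  exact ⟨{ K := ndtP k.K D, M := M, χ := χ, h0 := d1, h1 := d2,
           fc := ndt_fcP h4 h4c k.K D k.M M M d1.le d2.le k.fc d3 e1.le le_rfl,
           up := ndt_upW (X := Ten k.K.X D.X) (fun x => x.2) (fun a b h => h.2) d6,
           m1 := d4, m2 := d5, c1 := d7, c2 := d8 }, fun x => x.1, fun x y h => h.1⟩

theorem st_NDT (h1 : ST_TR2) (h2 : ST_RT2) (h3 : ST_NX2) (h4 : ST_TE2b) (h4c : ST_TE2c)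
    (h4d : ST_TE2d) (h5 : ST_GR2) (h6 : ST_XPF) (h7 : ST_XPT) (h8 : ST_ZHU) (h9 : ST_CUB) :
    ST_NDT := by
  intro Y M hM0 hM1 hYM x0 x1 κ hx0 hx01 hxM hκ
  obtain ⟨x1', hx1'⟩ : ∃ t : ℝ, t = x0 + (x1 - x0) / 4 := ⟨_, rfl⟩
  obtain ⟨y0, hy0⟩ : ∃ t : ℝ, t = x0 + (x1 - x0) / 2 := ⟨_, rfl⟩
  obtain ⟨y1, hy1⟩ : ∃ t : ℝ, t = x0 + 3 * (x1 - x0) / 4 := ⟨_, rfl⟩
  have o1 : x0 < x1' := by rw [hx1']; linarith
  have o2 : x1' < y0 := by rw [hx1', hy0]; linarith
  have o3 : y0 < y1 := by rw [hy1, hy0]; linarith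
  have o4 : y1 < x1 := by rw [hy1]; linarith
  obtain ⟨C, hC⟩ := exists_nat_ge y1
  -- the tree
  obtain ⟨tx, ty, η, hη, hbox, hch, hconv⟩ := h1 (Real.log y0) (Real.log y1) (Real.log x0)
    (Real.log x1') κ (Real.log_lt_log (by linarith) o3) (Real.log_lt_log (by linarith) o1) hκ
  -- intervals
  have ex1 : ∀ w, x0 < Real.exp (ty w - η w.length) := by
    intro w
    rw [← Real.log_lt_iff_lt_exp (by linarith)]
    exact (hbox w).2.2.1
  have ex2 : ∀ w, Real.exp (ty w + η w.length) < x1' := by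
    intro w
    rw [← Real.lt_log_iff_exp_lt (by linarith)]
    exact (hbox w).2.2.2
  have ex3 : ∀ w, Real.exp (ty w - η w.length) < Real.exp (ty w + η w.length) := by
    intro w
    have := hη w.length
    exact Real.exp_lt_exp.mpr (by linarith)
  have ey1 : ∀ w, y0 < Real.exp (tx w - η w.length) := by
    intro w
    rw [← Real.log_lt_iff_lt_exp (by linarith)]
    exact (hbox w).1
  have ey2 : ∀ w, Real.exp (tx w + η w.length) < y1 := by
    intro w
    rw [← Real.lt_log_iff_exp_lt (by linarith)]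
    exact (hbox w).2.1
  have ey3 : ∀ w, Real.exp (tx w - η w.length) < Real.exp (tx w + η w.length) := by
    intro w
    have := hη w.length
    exact Real.exp_lt_exp.mpr (by linarith)
  obtain ⟨lo, hlo⟩ : ∃ lo : List Bool → ℝ, ∀ w, lo w = 1 / (Real.exp (ty w + η w.length) - 1) :=
    ⟨_, fun _ => rfl⟩
  obtain ⟨hi, hhi⟩ : ∃ hi : List Bool → ℝ, ∀ w, hi w = 1 / (Real.exp (ty w - η w.length) - 1) :=
    ⟨_, fun _ => rfl⟩
  have l1 : ∀ w, 0 < lo w := by
    intro w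
    rw [hlo]
    have := ex1 w
    have := ex3 w
    exact one_div_pos.mpr (by linarith)
  have l2 : ∀ w, lo w < hi w := by
    intro w
    rw [hlo, hhi]
    exact one_div_lt_one_div_of_lt (by linarith [ex1 w]) (by linarith [ex3 w])
  have l3 : ∀ w, hi w < 1 := by
    intro w
    rw [hhi, div_lt_one (by linarith [ex1 w])]
    linarith [ex1 w]
  have l4 : ∀ w b, hi w < lo (b :: w) := by
    intro w b
    rw [hlo, hhi]
    apply one_div_lt_one_div_of_lt
    · linarith [ex1 (b :: w), ex3 (b :: w)]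
    · have := Real.exp_lt_exp.mpr (hch w b).2
      rw [List.length_cons]
      linarith
  -- the translation invariant graphs
  obtain ⟨X0, hX0⟩ := h2 C (lo []) (hi []) (l1 []).le (l2 []) (l3 []).le
  have step : ∀ (w : List Bool) (b : Bool) (X : {X : RD C // lo w < X.M ∧ X.M < hi w}),
      ∃ X' : {X : RD C // lo (b :: w) < X.M ∧ X.M < hi (b :: w)}, HomTo X'.1.R X.1.R := by
    intro w b X
    obtain ⟨X', a1, a2, a3⟩ := h3 C X.1 (lo (b :: w)) (hi (b :: w))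
      (by linarith [X.2.2, l4 w b]) (l2 _) (l3 _).le
    exact ⟨⟨X', a1, a2⟩, a3⟩
  choose nx hnx using step
  obtain ⟨nX, nX0, nX1⟩ : ∃ nX : ∀ w : List Bool, {X : RD C // lo w < X.M ∧ X.M < hi w},
      nX [] = ⟨X0, hX0⟩ ∧ ∀ b w, nX (b :: w) = nx w b (nX w) :=
    ⟨fun w => List.rec (motive := fun w => {X : RD C // lo w < X.M ∧ X.M < hi w}) ⟨X0, hX0⟩
      (fun b w X => nx w b X) w, rfl, fun _ _ => rfl⟩
  -- the cube parts
  obtain ⟨ca, hca⟩ : ∃ ca : List Bool → ℝ, ∀ w, ca w = Real.exp (tx w - η w.length) :=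
    ⟨_, fun _ => rfl⟩
  obtain ⟨cb, hcb⟩ : ∃ cb : List Bool → ℝ, ∀ w, cb w = Real.exp (tx w + η w.length) :=
    ⟨_, fun _ => rfl⟩
  have k1 : ∀ w, 2 < ca w := fun w => by rw [hca]; linarith [ey1 w]
  have k2 : ∀ w, ca w < cb w := fun w => by rw [hca, hcb]; exact ey3 w
  have k3 : ∀ w b, cb (b :: w) < ca w := by
    intro w b
    rw [hca, hcb]
    have := (hch w b).1
    rw [List.length_cons]
    exact Real.exp_lt_exp.mpr this
  obtain ⟨K0⟩ : Nonempty (NdtK (ca []) (cb [])) := by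
    obtain ⟨D, M', χ, d1, d2, d3, d4, d5, d6, d7, d8⟩ := h9 (ca []) (cb []) (k1 _) (k2 _)
    exact ⟨{ K := D, M := M', χ := χ, h0 := d1, h1 := d2, fc := d3, up := d6, m1 := d4,
             m2 := d5, c1 := d7, c2 := d8 }⟩
  have kstep : ∀ (w : List Bool) (b : Bool) (k : NdtK (ca w) (cb w)),
      ∃ k' : NdtK (ca (b :: w)) (cb (b :: w)), HomTo k'.K.X k.K.X := fun w b k =>
    ndt_step h4 h4c h9 k (k1 _) (k2 _) (k3 w b)
  choose kx hkx using kstep
  obtain ⟨nK, nK0, nK1⟩ : ∃ nK : ∀ w : List Bool, NdtK (ca w) (cb w),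
      nK [] = K0 ∧ ∀ b w, nK (b :: w) = kx w b (nK w) :=
    ⟨fun w => List.rec (motive := fun w => NdtK (ca w) (cb w)) K0
      (fun b w k => kx w b k) w, rfl, fun _ _ => rfl⟩
  -- bounds
  have q1 : ∀ w, Real.exp (ty w - η w.length) < 1 + 1 / (nX w).1.M ∧
      1 + 1 / (nX w).1.M < Real.exp (ty w + η w.length) := by
    intro w
    have a1 := (nX w).2.1
    have a2 := (nX w).2.2
    obtain ⟨M', hM'⟩ : ∃ M' : ℝ, M' = (nX w).1.M := ⟨_, rfl⟩
    rw [← hM'] at a1 a2 ⊢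
    have a0 : 0 < M' := by linarith [l1 w]
    rw [hlo] at a1
    rw [hhi] at a2
    have b1 : 0 < Real.exp (ty w + η w.length) - 1 := by linarith [ex1 w, ex3 w]
    have b2 : 0 < Real.exp (ty w - η w.length) - 1 := by linarith [ex1 w]
    have b3 : 1 / M' < Real.exp (ty w + η w.length) - 1 := by
      rw [div_lt_iff₀ b1] at a1
      rw [div_lt_iff₀ a0]
      linarith
    have b4 : Real.exp (ty w - η w.length) - 1 < 1 / M' := by
      rw [lt_div_iff₀ b2] at a2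
      rw [lt_div_iff₀ a0]
      linarith
    constructor <;> linarith
  have q2 : ∀ w, M < (nX w).1.M := fun w => ndt_lt (nX w).1.lo hM0 (by
    linarith [(q1 w).2, ex2 w])
  have q3 : ∀ w, y0 < 1 + 1 / (nK w).M := by
    intro w
    have a1 := (nK w).m1
    have a2 := hca w
    linarith [ey1 w]
  have q4 : ∀ w, 1 + 1 / (nK w).M < y1 := by
    intro w
    have a1 := (nK w).m2
    have a2 := hcb w
    linarith [ey2 w]
  have q5 : ∀ w, (nK w).M < (nX w).1.M := fun w => ndt_lt (nX w).1.lo (nK w).h0 (by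
    linarith [(q1 w).2, ex2 w, q3 w])
  have q6 : ∀ w, M < (nK w).M := fun w => ndt_lt (nK w).h0 hM0 (by linarith [q4 w])
  obtain ⟨nd, hnθ, hnχ, hnc, hnY, hnn⟩ : ∃ nd : List Bool → Nd,
      (∀ w, (nd w).θ = 1 + 1 / (nX w).1.M) ∧ (∀ w, (nd w).χ = (nK w).χ) ∧
      (∀ w, (nd w).c = 1 + 1 / (nK w).M) ∧ (∀ w, HomTo (nd w).X Y.X) ∧
      ∀ w b, HomTo (nd (b :: w)).X (nd w).X := by
    have hN := fun w => ndt_node h4 h4c h4d h5 h6 h7 h8 Y (nK w).K (nX w).1 M (nK w).M (nK w).χ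
      hYM (nK w).fc (nK w).up (nK w).h0 (nK w).h1 (q2 w).le (q5 w).le (q6 w).le
      (by linarith [q4 w])
    refine ⟨fun w => { toGW := ndtP (ndtP Y (nK w).K) (ndtU (nX w).1), θ := 1 + 1 / (nX w).1.M,
                       χ := (nK w).χ, c := 1 + 1 / (nK w).M,
                       upT := (hN w).1, upW := (hN w).2.1, lowT := (hN w).2.2.1,
                       lowC := (hN w).2.2.2 },
      fun _ => rfl, fun _ => rfl, fun _ => rfl, fun w => ?_, fun w b => ?_⟩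
    · exact ⟨fun x => x.1.1, fun x y hxy => hxy.1.1⟩
    · have hX : HomTo (nX (b :: w)).1.R (nX w).1.R := by
        rw [nX1]
        exact hnx w b (nX w)
      have hK : HomTo (nK (b :: w)).K.X (nK w).K.X := by
        rw [nK1]
        exact hkx w b (nK w)
      obtain ⟨φ1, hφ1⟩ := hK
      obtain ⟨φ2, hφ2⟩ := hX
      exact ⟨fun x => ((x.1.1, φ1 x.1.2), φ2 x.2),
        fun x y hxy => ⟨⟨hxy.1.1, hφ1 _ _ hxy.1.2⟩, hφ2 _ _ hxy.2⟩⟩
  refine ⟨nd, hnY, hnn, ?_, ?_⟩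
  · intro w
    rw [hnθ, hnχ, hnc]
    have a0 := (nK w).c1
    have a1 := q3 w
    have a2 := k1 w
    exact ⟨by linarith, by linarith, by linarith [(q1 w).1, ex1 w]⟩
  · intro a
    obtain ⟨F, hFa, hFb⟩ : ∃ F : List Bool → ℝ, F a = Real.log (nd a).c ∧
        ∀ b, b ≠ a → F b = Real.log (nd b).χ := by
      refine ⟨fun b => if b = a then Real.log (nd a).c else Real.log (nd b).χ, ?_, ?_⟩
      · exact if_pos rfl
      · intro b hb
        exact if_neg hb
    have hF : ∀ w, |F w - tx w| < η w.length := by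
      intro w
      by_cases hw : w = a
      · rw [hw, hFa, hnc]
        have a1 := (nK a).m1
        have a2 := (nK a).m2
        have a3 := hca a
        have a4 := hcb a
        exact ndt_log (by linarith) (by linarith)
      · rw [hFb w hw, hnχ]
        have a1 := (nK w).c1
        have a2 := (nK w).c2
        have a3 := hca w
        have a4 := hcb w
        exact ndt_log (by linarith) (by linarith)
    have hH : ∀ w, |Real.log (nd w).θ - ty w| < η w.length := by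
      intro w
      rw [hnθ]
      exact ndt_log (q1 w).1 (q1 w).2
    obtain ⟨l, b1, b2, b3⟩ := hconv F (fun w => Real.log (nd w).θ) hF hH a
    refine ⟨l, b1, b2, fun b hb => ?_⟩
    have hba : b ≠ a := by
      intro h
      exact hb (by rw [h])
    have b4 := b3 b hb
    rw [hFa, hFb b hba] at b4
    linarith

end Pool.Agent.Helper14.FO
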